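import Mathlib

set_option autoImplicit false

/-! # A Borel partition into complete sections, each meeting every class in an infinite set -/

namespace Pool.Agent.H139R3.MF

open Set

universe u

section

variable {X : Type u} [MeasurableSpace X] [StandardBorelSpace X]
  (R : X → X → Prop) (s : ℕ → X → X)

theorem inf_iff (hs : ∀ x y, R x y ↔ ∃ n, s n x = y) (B : Set X) (x : X) :
    {y | R x y ∧ y ∈ B}.Infinite ↔ ∀ J : ℕ, ∃ n, s n x ∈ B ∧ ∀ j < J, s j x ≠ s n x := by
  constructor
  · intro h J
    have hf : ((fun j => s j x) '' (Set.Iio J)).Finite := (Set.finite_Iio J).image _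
    obtain ⟨y, hy, hyJ⟩ := h.exists_notMem_finite hf
    obtain ⟨n, hn⟩ := (hs _ _).1 hy.1
    refine ⟨n, hn ▸ hy.2, ?_⟩
    intro j hj he
    exact hyJ ⟨j, hj, by rw [← hn]; exact he⟩
  · intro h hfin
    have h1 : ∀ y, ∃ n, R x y → s n x = y := by
      intro y
      by_cases hy : R x y
      · obtain ⟨n, hn⟩ := (hs _ _).1 hy
        exact ⟨n, fun _ => hn⟩
      · exact ⟨0, fun h => absurd h hy⟩
    choose N hN using h1
    obtain ⟨J, hJ⟩ := (hfin.image N).bddAbove
    obtain ⟨n, hn1, hn2⟩ := h (J + 1)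
    have hR : R x (s n x) := (hs _ _).2 ⟨n, rfl⟩
    exact hn2 (N (s n x)) (Nat.lt_succ_of_le (hJ ⟨s n x, ⟨hR, hn1⟩, rfl⟩)) (hN _ hR)

theorem meas_inf (hsm : ∀ n, Measurable (s n)) (hs : ∀ x y, R x y ↔ ∃ n, s n x = y)
    (B : Set X) (hB : MeasurableSet B) : MeasurableSet {x | {y | R x y ∧ y ∈ B}.Infinite} := by
  have e0 : {x | {y | R x y ∧ y ∈ B}.Infinite} =
      ⋂ J : ℕ, ⋃ n : ℕ, ((s n) ⁻¹' B ∩ ⋂ j : ℕ, ⋂ _ : j < J, {x | s j x = s n x}ᶜ) := by
    ext x
    have := inf_iff R s hs B x
    simp only [mem_iInter, mem_iUnion, mem_inter_iff, mem_preimage, mem_compl_iff]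
    exact this
  rw [e0]
  refine MeasurableSet.iInter (fun J => MeasurableSet.iUnion (fun n => ?_))
  refine (hB.preimage (hsm n)).inter (MeasurableSet.iInter (fun j => MeasurableSet.iInter
    (fun _ => ?_)))
  exact (measurableSet_eq_fun (hsm j) (hsm n)).compl

/-- An aperiodic countable Borel equivalence relation has a Borel partition into countably many
sets each of which meets every class in an infinite set. -/
theorem exists_marker (hR : Equivalence R) (hsm : ∀ n, Measurable (s n))
    (hs : ∀ x y, R x y ↔ ∃ n, s n x = y) (hinf : ∀ x, {y | R x y}.Infinite) :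
    ∃ ρ : X → ℕ, Measurable ρ ∧ ∀ x m, {y | R x y ∧ ρ y = m}.Infinite := by
  classical
  let e0 : X → ℝ := MeasureTheory.embeddingReal X
  have he0 : Measurable e0 := MeasureTheory.measurable_embeddingReal X
  have hi0 : Function.Injective e0 := (MeasureTheory.measurableEmbedding_embeddingReal X).injective
  let e : X → ℝ := fun x => Real.arctan (e0 x)
  have he : Measurable e := Real.measurable_arctan.comp he0
  have hi : Function.Injective e := Real.arctan_injective.comp hi0
  have hb1 : ∀ x, e x < 2 := fun x => lt_trans (Real.arctan_lt_pi_div_two _) (by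
    linarith [Real.pi_lt_d2])
  have hb2 : ∀ x, -2 < e x := fun x => lt_trans (by
    linarith [Real.pi_lt_d2]) (Real.neg_pi_div_two_lt_arctan _)
  let Q : X → Set ℝ := fun x => {q | ∃ r : ℚ, (r : ℝ) = q ∧ {y | R x y ∧ e y < r}.Infinite}
  have hQne : ∀ x, (Q x).Nonempty := by
    intro x
    refine ⟨2, 2, by norm_num, ?_⟩
    refine (hinf x).mono ?_
    intro y hy
    refine ⟨hy, ?_⟩
    have := hb1 y
    push_cast
    exact this
  have hQb : ∀ x, BddBelow (Q x) := by
    intro x
    refine ⟨-2, ?_⟩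
    rintro q ⟨r, rfl, hr⟩
    obtain ⟨y, hy⟩ := hr.nonempty
    exact le_of_lt (lt_trans (hb2 y) hy.2)
  let l : X → ℝ := fun x => sInf (Q x)
  have hl : Measurable l := by
    refine measurable_of_Iio (fun c => ?_)
    have e1 : l ⁻¹' Iio c = ⋃ r : ℚ, ⋃ _ : (r : ℝ) < c, {x | {y | R x y ∧ y ∈ {y | e y < r}}.Infinite} := by
      ext x
      simp only [mem_preimage, mem_Iio, mem_iUnion, l]
      rw [csInf_lt_iff (hQb x) (hQne x)]
      constructor
      · rintro ⟨q, ⟨r, rfl, hr⟩, hq⟩
        exact ⟨r, hq, hr⟩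
      · rintro ⟨r, hq, hr⟩
        exact ⟨r, ⟨r, rfl, hr⟩, hq⟩
    rw [e1]
    refine MeasurableSet.iUnion (fun r => MeasurableSet.iUnion (fun _ => ?_))
    exact meas_inf R s hsm hs _ (measurableSet_lt he measurable_const)
  have hQR : ∀ x y, R x y → Q x = Q y := by
    intro x y hxy
    have : ∀ z, R x z ↔ R y z := fun z => ⟨fun h => hR.trans (hR.symm hxy) h,
      fun h => hR.trans hxy h⟩
    simp only [Q, this]
  have hlR : ∀ x y, R x y → l x = l y := by
    intro x y hxy
    simp only [l, hQR x y hxy]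
  -- points of the class close to `l`
  have hclose : ∀ x (ε : ℝ), 0 < ε → {y | R x y ∧ |e y - l x| ≤ ε}.Infinite := by
    intro x ε hε
    obtain ⟨q, ⟨r, rfl, hr⟩, hq⟩ := (csInf_lt_iff (hQb x) (hQne x)).1
      (show sInf (Q x) < l x + ε by simp only [l]; linarith)
    obtain ⟨r', hr'1, hr'2⟩ := exists_rat_btwn (show l x - ε < l x by linarith)
    have hfin : ¬ {y | R x y ∧ e y < r'}.Infinite := by
      intro h
      have : l x ≤ r' := csInf_le (hQb x) ⟨r', rfl, h⟩
      linarith
    rw [not_infinite] at hfin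
    refine (hr.sdiff hfin).mono ?_
    rintro y ⟨⟨hy1, hy2⟩, hy3⟩
    refine ⟨hy1, ?_⟩
    have h3 : ¬ e y < r' := fun h => hy3 ⟨hy1, h⟩
    push Not at h3
    rw [abs_le]
    constructor <;> linarith
  let k : X → ℕ := fun x => ⌊|e x - l x|⁻¹⌋₊
  have hk : Measurable k := by
    refine Nat.measurable_floor.comp ?_
    exact ((he.sub hl).abs).inv
  have hkinf : ∀ x, {j | ∃ y, R x y ∧ k y = j}.Infinite := by
    intro x
    refine Set.infinite_of_not_bddAbove ?_
    rintro ⟨N, hN⟩
    have h1 := hclose x (((N : ℝ) + 1)⁻¹) (by positivity)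
    have h2 : {y | R x y ∧ e y = l x}.Finite := by
      refine Set.Subsingleton.finite ?_
      rintro y ⟨_, hy⟩ z ⟨_, hz⟩
      exact hi (hy.trans hz.symm)
    obtain ⟨y, ⟨hy1, hy2⟩, hy3⟩ := (h1.sdiff h2).nonempty
    have hne : e y ≠ l x := fun h => hy3 ⟨hy1, h⟩
    have hpos : 0 < |e y - l x| := abs_pos.2 (sub_ne_zero.2 hne)
    have h4 : (N + 1 : ℕ) ≤ k y := by
      refine Nat.le_floor ?_
      rw [← hlR x y hy1]
      push_cast
      rw [le_inv_comm₀ (by positivity) hpos]
      exact hy2
    have := hN ⟨y, hy1, rfl⟩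
    omega
  let K : X → ℕ → Prop := fun x j => ∃ y, R x y ∧ k y = j
  have hKm : ∀ j, MeasurableSet {x | K x j} := by
    intro j
    have e1 : {x | K x j} = ⋃ n, {x | k (s n x) = j} := by
      ext x
      simp only [mem_ofPred_eq, mem_iUnion, K]
      constructor
      · rintro ⟨y, hy, hj⟩
        obtain ⟨n, rfl⟩ := (hs _ _).1 hy
        exact ⟨n, hj⟩
      · rintro ⟨n, hj⟩
        exact ⟨_, (hs _ _).2 ⟨n, rfl⟩, hj⟩
    rw [e1]
    exact MeasurableSet.iUnion (fun n => (measurableSet_singleton j).preimage (hk.comp (hsm n)))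
  have hKR : ∀ x y, R x y → K x = K y := by
    intro x y hxy
    have : ∀ z, R x z ↔ R y z := fun z => ⟨fun h => hR.trans (hR.symm hxy) h,
      fun h => hR.trans hxy h⟩
    funext j
    simp only [K, this]
  let c : ℕ → X → ℕ := fun n x => Nat.count (K x) n
  have hc : ∀ n, Measurable (c n) := by
    intro n
    induction n with
    | zero => simp [c]
    | succ n ih =>
      have e1 : c (n + 1) = fun x => c n x + if K x n then 1 else 0 := by
        funext x
        simp only [c, Nat.count_succ]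
      rw [e1]
      exact ih.add (Measurable.ite (hKm n) measurable_const measurable_const)
  let r : X → ℕ := fun x => c (k x) x
  have hr : Measurable r := by
    refine measurable_to_countable' (fun i => ?_)
    have e1 : r ⁻¹' {i} = ⋃ n, ({x | k x = n} ∩ {x | c n x = i}) := by
      ext x
      simp only [mem_preimage, mem_singleton_iff, mem_iUnion, mem_inter_iff, mem_ofPred_eq, r]
      constructor
      · intro h
        exact ⟨k x, rfl, h⟩
      · rintro ⟨n, h1, h2⟩
        rw [h1]
        exact h2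
    rw [e1]
    exact MeasurableSet.iUnion (fun n => ((measurableSet_singleton n).preimage hk).inter
      ((measurableSet_singleton i).preimage (hc n)))
  have hrsurj : ∀ x i, ∃ y, R x y ∧ r y = i := by
    intro x i
    have h1 : K x (Nat.nth (K x) i) := Nat.nth_mem_of_infinite (hkinf x) i
    obtain ⟨y, hy, hyk⟩ := h1
    refine ⟨y, hy, ?_⟩
    simp only [r, c]
    rw [← hKR x y hy, hyk, Nat.count_nth_of_infinite (hkinf x)]
  refine ⟨fun x => (Nat.unpair (r x)).1, ?_, ?_⟩
  · exact (measurable_from_top (f := fun n : ℕ => (Nat.unpair n).1)).comp hr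
  · intro x m
    choose y hy1 hy2 using hrsurj x
    refine Set.infinite_of_injective_forall_mem (f := fun j => y (Nat.pair m j)) ?_ ?_
    · intro j j' h
      have h1 : r (y (Nat.pair m j)) = r (y (Nat.pair m j')) := congrArg r h
      rw [hy2, hy2] at h1
      exact ((Nat.pair_eq_pair).1 h1).2
    · intro j
      refine ⟨hy1 _, ?_⟩
      simp only [hy2, Nat.unpair_pair]

end

end Pool.Agent.H139R3.MF
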