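import Mathlib

set_option autoImplicit false

/-! # The Polish space carrying a minimal `F_σ` copy of a countable Borel equivalence relation -/

namespace Pool.Agent.H139R3.MF

open Set TopologicalSpace Filter PiNat
open scoped Topology

universe u

/-- Finitely supported sequences of natural numbers. -/
abbrev I : Type := ℕ →₀ ℕ

section pmap

variable {X : Type u} (e : I → ℕ → X)

/-- The locally constant map off `w`. -/
noncomputable def pm (w : I) (z : ℕ → ℕ) : X := e w (z (firstDiff z w + 1))

theorem pm_locally (w : I) (z : ℕ → ℕ) (hz : z ≠ w) :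
    ∀ᶠ z' in 𝓝 z, z' ≠ ⇑w ∧ pm e w z' = pm e w z := by
  have h1 : cylinder z (firstDiff z w + 2) ∈ 𝓝 z :=
    (isOpen_cylinder (fun _ => ℕ) z _).mem_nhds (self_mem_cylinder z _)
  filter_upwards [h1] with z' hz'
  rw [mem_cylinder_iff] at hz'
  have h2 : z' (firstDiff z w) = z (firstDiff z w) := hz' _ (by omega)
  have h3 : z' (firstDiff z w) ≠ w (firstDiff z w) := by
    rw [h2]
    exact apply_firstDiff_ne hz
  have h4 : z' ≠ w := fun h => h3 (congrFun h _)
  have h5 : firstDiff z' w = firstDiff z w := by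
    refine le_antisymm ?_ ?_
    · by_contra hcon
      push Not at hcon
      exact h3 (apply_eq_of_lt_firstDiff hcon)
    · rw [← mem_cylinder_iff_le_firstDiff h4]
      rw [mem_cylinder_iff]
      intro i hi
      rw [hz' i (by omega)]
      exact apply_eq_of_lt_firstDiff hi
  refine ⟨h4, ?_⟩
  unfold pm
  rw [h5, hz' _ (by omega)]

end pmap

section dense

theorem dense_I : Dense (range (fun w : I => (w : ℕ → ℕ))) := by
  rw [dense_iff_inter_open]
  intro U hU ⟨z, hz⟩
  obtain ⟨V, ⟨z', n, rfl⟩, hzV, hVU⟩ :=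
    (isTopologicalBasis_cylinders (fun _ : ℕ => ℕ)).exists_subset_of_mem_open hz hU
  refine ⟨(Finsupp.onFinset (Finset.range n) (fun i => if i < n then z i else 0) ?_ : I), ?_, ?_⟩
  · intro i hi
    rw [Finset.mem_range]
    by_contra hcon
    rw [if_neg hcon] at hi
    exact hi rfl
  · apply hVU
    rw [mem_cylinder_iff] at hzV ⊢
    intro i hi
    simp only [Finsupp.onFinset_apply, if_pos hi]
    exact hzV i hi
  · exact ⟨_, rfl⟩

theorem exists_I (z : ℕ → ℕ) (N : Set (ℕ → ℕ)) (hN : N ∈ 𝓝 z) : ∃ w : I, (w : ℕ → ℕ) ∈ N := by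
  obtain ⟨U, hUN, hU, hz⟩ := mem_nhds_iff.1 hN
  obtain ⟨y, hyU, w, rfl⟩ := dense_iff_inter_open.1 dense_I U hU ⟨z, hz⟩
  exact ⟨w, hUN hyU⟩

/-- Near `v` there is a finitely supported point off `v` at which `pm e v` takes value
`e v j`. -/
theorem exists_I' {X : Type u} (e : I → ℕ → X) (v : I) (j : ℕ) (N : Set (ℕ → ℕ))
    (hN : N ∈ 𝓝 (v : ℕ → ℕ)) :
    ∃ w : I, (w : ℕ → ℕ) ∈ N ∧ w ≠ v ∧ pm e v w = e v j := by
  obtain ⟨U, hUN, hU, hz⟩ := mem_nhds_iff.1 hN
  obtain ⟨V, ⟨z', n, rfl⟩, hzV, hVU⟩ :=
    (isTopologicalBasis_cylinders (fun _ : ℕ => ℕ)).exists_subset_of_mem_open hz hU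
  let w : I := (v.update n (v n + 1)).update (n + 1) j
  have w0 : ∀ i < n, w i = v i := by
    intro i hi
    have h1 : i ≠ n + 1 := by omega
    have h2 : i ≠ n := by omega
    simp [w, Finsupp.update_apply, h1, h2]
  have w1 : w n = v n + 1 := by
    simp [w, Finsupp.update_apply]
  have w2 : w (n + 1) = j := by
    simp [w, Finsupp.update_apply]
  have hne : (w : ℕ → ℕ) ≠ v := by
    intro h
    have := congrFun h n
    rw [w1] at this
    omega
  have hfd : firstDiff (w : ℕ → ℕ) v = n := by
    refine le_antisymm ?_ ?_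
    · by_contra hcon
      push Not at hcon
      have := apply_eq_of_lt_firstDiff hcon
      rw [w1] at this
      omega
    · rw [← mem_cylinder_iff_le_firstDiff hne, mem_cylinder_iff]
      exact w0
  refine ⟨w, hUN (hVU ?_), fun h => hne (congrArg _ h), ?_⟩
  · rw [mem_cylinder_iff] at hzV ⊢
    intro i hi
    rw [w0 i hi]
    exact hzV i hi
  · unfold pm
    rw [hfd, w2]

end dense

section main

variable {X : Type u} [TopologicalSpace X] [PolishSpace X] [MeasurableSpace X] [BorelSpace X]
  (σ : X → Option I) (nav : X → ℕ → ℕ) (e : I → ℕ → X)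

/-- The carrier. -/
def YS : Set ((ℕ → ℕ) × (I → X)) :=
  {y | ∀ w : I, σ (y.2 w) = some w ∧ (y.1 ≠ w → y.2 w = pm e w y.1)}

theorem YS_closed (hσ : ∀ o, IsClopen (σ ⁻¹' {o})) : IsClosed (YS σ e) := by
  have e1 : YS σ e = ⋂ w : I, ({y : (ℕ → ℕ) × (I → X) | y.2 w ∈ σ ⁻¹' {some w}} ∩
      {y : (ℕ → ℕ) × (I → X) | y.1 ≠ w → y.2 w = pm e w y.1}) := by
    ext y
    simp only [YS, mem_iInter, mem_inter_iff, mem_preimage, mem_singleton_iff]
    rfl
  rw [e1]
  refine isClosed_iInter (fun w => IsClosed.inter ?_ ?_)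
  · exact (hσ _).1.preimage ((continuous_apply w).comp continuous_snd)
  · rw [← isOpen_compl_iff, isOpen_iff_eventually]
    intro y hy
    have hy1 : y.1 ≠ w ∧ y.2 w ≠ pm e w y.1 := by
      simpa only [mem_compl_iff, mem_ofPred_eq, Classical.not_imp] using hy
    have h1 : ∀ᶠ y' in 𝓝 y, y'.1 ≠ ⇑w ∧ pm e w y'.1 = pm e w y.1 :=
      continuous_fst.continuousAt.eventually (pm_locally e w y.1 hy1.1)
    have h2 : ∀ᶠ y' in 𝓝 y, y'.2 w ≠ pm e w y.1 := by
      have hc : Continuous (fun y' : (ℕ → ℕ) × (I → X) => y'.2 w) :=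
        (continuous_apply w).comp continuous_snd
      exact (hc.continuousAt (x := y)).eventually_ne hy1.2
    filter_upwards [h1, h2] with y' h1' h2'
    intro h
    have h3 := h h1'.1
    rw [h1'.2] at h3
    exact h2' h3

open Classical in
/-- The map into the carrier. -/
noncomputable def fm (x : X) : (ℕ → ℕ) × (I → X) :=
  (nav x, fun w => if σ x = some w then x else pm e w (nav x))

variable (hσ : ∀ o, IsClopen (σ ⁻¹' {o})) (hnav : Continuous nav)
  (h1 : ∀ x (w : I), σ x = some w → nav x = w) (h2 : ∀ x, σ x = none → ∀ w : I, nav x ≠ w)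
  (h3 : ∀ x x', σ x = none → σ x' = none → nav x = nav x' → x = x')
  (h4 : ∀ z : ℕ → ℕ, (∀ w : I, z ≠ w) → ∃ x, σ x = none ∧ nav x = z)
  (he1 : ∀ w j, σ (e w j) = some w)
  (he2 : ∀ w (O : Set X), IsOpen O → ∀ x ∈ O, σ x = some w → ∃ j, e w j ∈ O)

include h1 h2 he1 in
omit [TopologicalSpace X] [PolishSpace X] [MeasurableSpace X] [BorelSpace X] in
theorem fm_mem (x : X) : fm σ nav e x ∈ YS σ e := by
  intro w
  by_cases hx : σ x = some w
  · have hn := h1 x w hx
    refine ⟨?_, fun h => absurd hn h⟩
    simp only [fm, hx, if_true]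
  · have e1 : (fm σ nav e x).2 w = pm e w (nav x) := if_neg hx
    rw [e1]
    exact ⟨he1 _ _, fun _ => rfl⟩

include hσ hnav h1 h2 in
omit [PolishSpace X] [MeasurableSpace X] [BorelSpace X] in
theorem fm_cont : Continuous (fm σ nav e) := by
  refine hnav.prodMk (continuous_pi (fun w => ?_))
  rw [continuous_iff_continuousAt]
  intro x
  by_cases hx : σ x = some w
  · have hev : ∀ᶠ x' in 𝓝 x, (if σ x' = some w then x' else pm e w (nav x')) = x' := by
      have : σ ⁻¹' {some w} ∈ 𝓝 x := (hσ _).2.mem_nhds hx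
      filter_upwards [this] with x' hx'
      exact if_pos hx'
    refine (continuousAt_id (x := x)).congr ?_
    filter_upwards [hev] with x' hx'
    rw [hx']
    rfl
  · have hne : nav x ≠ w := by
      cases ho : σ x with
      | none => exact h2 x ho w
      | some w' =>
        rw [h1 x w' ho]
        intro h
        apply hx
        rw [ho]
        congr 1
        exact DFunLike.coe_injective h
    have hev : ∀ᶠ x' in 𝓝 x, (if σ x' = some w then x' else pm e w (nav x')) =
        pm e w (nav x) := by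
      have e1 : (σ ⁻¹' {some w})ᶜ ∈ 𝓝 x := (hσ _).1.isOpen_compl.mem_nhds hx
      have e2 := hnav.continuousAt.eventually (pm_locally e w (nav x) hne)
      filter_upwards [e1, e2] with x' hx' hx''
      exact (if_neg hx').trans hx''.2
    refine (continuousAt_const (y := pm e w (nav x))).congr ?_
    filter_upwards [hev] with x' hx'
    rw [hx']

include h1 h2 h3 in
omit [TopologicalSpace X] [PolishSpace X] [MeasurableSpace X] [BorelSpace X] in
theorem fm_inj : Function.Injective (fm σ nav e) := by
  intro x x' h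
  have hn : nav x = nav x' := congrArg Prod.fst h
  have hp : (fun w => if σ x = some w then x else pm e w (nav x)) =
    (fun w => if σ x' = some w then x' else pm e w (nav x')) := congrArg Prod.snd h
  cases ho : σ x with
  | none =>
    have ho' : σ x' = none := by
      cases ho' : σ x' with
      | none => rfl
      | some w =>
        exact absurd (hn.trans (h1 x' w ho')) (h2 x ho w)
    exact h3 x x' ho ho' hn
  | some w =>
    have ho' : σ x' = some w := by
      cases ho' : σ x' with
      | none => exact absurd (hn.symm.trans (h1 x w ho)) (h2 x' ho' w)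
      | some w' =>
        have : (w' : ℕ → ℕ) = w := (h1 x' w' ho').symm.trans (hn.symm.trans (h1 x w ho))
        rw [DFunLike.coe_injective this]
    have := congrFun hp w
    simp only [ho, ho', if_true] at this
    exact this

include h1 h4 in
omit [TopologicalSpace X] [PolishSpace X] [MeasurableSpace X] [BorelSpace X] in
theorem fm_surj (y : (ℕ → ℕ) × (I → X)) (hy : y ∈ YS σ e) : ∃ x, fm σ nav e x = y ∧
    ∀ w : I, y.1 = w → x = y.2 w := by
  by_cases hw : ∃ w : I, y.1 = w
  · obtain ⟨w, hw⟩ := hw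
    have hσw := (hy w).1
    refine ⟨y.2 w, ?_, ?_⟩
    · have hn : nav (y.2 w) = y.1 := (h1 _ _ hσw).trans hw.symm
      refine Prod.ext hn ?_
      funext v
      simp only [fm, hσw]
      by_cases hv : some w = some v
      · rw [if_pos hv]
        rw [Option.some_inj] at hv
        rw [hv]
      · rw [if_neg hv, hn]
        refine ((hy v).2 ?_).symm
        intro h
        apply hv
        congr 1
        exact DFunLike.coe_injective (hw.symm.trans h)
    · intro v hv
      have : w = v := DFunLike.coe_injective (hw.symm.trans hv)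
      rw [this]
  · push Not at hw
    obtain ⟨x, hx, hxn⟩ := h4 y.1 hw
    refine ⟨x, ?_, fun w h => absurd h (hw w)⟩
    refine Prod.ext hxn ?_
    funext v
    simp only [fm, hx]
    rw [if_neg (by simp), hxn]
    exact ((hy v).2 (hw v)).symm

include hσ hnav h1 h2 h3 h4 he1 he2 in
theorem main (R : X → X → Prop) (hR : Equivalence R) (s : ℕ → X → X) (hsc : ∀ n, Continuous (s n))
    (hs : ∀ x y, R x y ↔ ∃ n, s n x = y) (hT : ∀ x y, σ x = none → σ y = none → R x y → x = y)
    (hX : ∀ x (w : I), ∃ y, R x y ∧ σ y = some w) :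
    ∃ (Y : Type u) (_ : TopologicalSpace Y) (_ : PolishSpace Y) (_ : MeasurableSpace Y)
      (_ : BorelSpace Y) (f : X ≃ᵐ Y),
      (∃ K : ℕ → Set (Y × Y), (∀ n, IsClosed (K n)) ∧
        {p : Y × Y | R (f.symm p.1) (f.symm p.2)} = ⋃ n, K n) ∧
      ∀ x, Dense (f '' {y | R x y}) := by
  classical
  have hcl := YS_closed σ e hσ
  have hpol : PolishSpace (YS σ e) := hcl.polishSpace
  let F : X → YS σ e := fun x => ⟨fm σ nav e x, fm_mem σ nav e h1 h2 he1 x⟩
  have hFc : Continuous F := (fm_cont σ nav e hσ hnav h1 h2).subtype_mk _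
  have hFi : Function.Injective F := fun x x' h =>
    fm_inj σ nav e h1 h2 h3 (congrArg Subtype.val h)
  have hFs : ∀ y : YS σ e, ∃ x, F x = y ∧ ∀ w : I, y.1.1 = w → x = y.1.2 w := by
    intro y
    obtain ⟨x, hx, hx'⟩ := fm_surj σ nav e h1 h4 y.1 y.2
    exact ⟨x, Subtype.ext hx, hx'⟩
  let mY : MeasurableSpace (YS σ e) := borel _
  have bY : BorelSpace (YS σ e) := ⟨rfl⟩
  have hFe : MeasurableEmbedding F := hFc.measurableEmbedding hFi
  have hFr : range F = univ := eq_univ_of_forall (fun y => (hFs y).imp fun x h => h.1)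
  let fe : X ≃ YS σ e := Equiv.ofBijective F ⟨hFi, fun y => (hFs y).imp fun x h => h.1⟩
  let f : X ≃ᵐ YS σ e :=
    { toEquiv := fe
      measurable_toFun := hFe.measurable
      measurable_invFun := by
        intro t ht
        have := hFe.measurableSet_image.2 ht
        have e1 : F '' t = fe.symm ⁻¹' t := Equiv.image_eq_preimage_symm fe t
        rw [e1] at this
        exact this }
  have hf : ∀ x, f x = F x := fun _ => rfl
  have hfs : ∀ x, f.symm (F x) = x := fun x => f.symm_apply_apply x
  have hfs' : ∀ y, F (f.symm y) = y := fun y => f.apply_symm_apply y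
  have hfw : ∀ (y : YS σ e) (w : I), y.1.1 = w → f.symm y = y.1.2 w := by
    intro y w hw
    obtain ⟨x, rfl, hx⟩ := hFs y
    rw [hfs]
    exact hx w hw
  have hF1 : ∀ x (w : I), σ x = some w → (F x).1.1 = w := fun x w hx => h1 x w hx
  have hF2 : ∀ x (w : I), σ x = some w → (F x).1.2 w = x := by
    intro x w hx
    simp only [F, fm, hx, if_true]
  refine ⟨YS σ e, inferInstance, hpol, mY, bY, f, ?_, ?_⟩
  · let Ks : Option (I × ℕ × Bool) → Set (YS σ e × YS σ e) := fun o => match o with
      | none => {p | p.1 = p.2}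
      | some (w, n, true) => {p | p.2.1.1 = w ∧ p.1 = F (s n (p.2.1.2 w))}
      | some (w, n, false) => {p | p.1.1.1 = w ∧ p.2 = F (s n (p.1.1.2 w))}
    have hKs : ∀ o, IsClosed (Ks o) := by
      have hc1 : Continuous (fun y : YS σ e => y.1.1) := continuous_fst.comp continuous_subtype_val
      have hc2 : ∀ w : I, Continuous (fun y : YS σ e => y.1.2 w) := fun w =>
        (continuous_apply w).comp (continuous_snd.comp continuous_subtype_val)
      rintro (_ | ⟨w, n, (_ | _)⟩)
      · exact isClosed_eq continuous_fst continuous_snd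
      · refine IsClosed.inter (isClosed_eq (hc1.comp continuous_fst) continuous_const)
          (isClosed_eq continuous_snd (hFc.comp ((hsc n).comp ((hc2 w).comp continuous_fst))))
      · refine IsClosed.inter (isClosed_eq (hc1.comp continuous_snd) continuous_const)
          (isClosed_eq continuous_fst (hFc.comp ((hsc n).comp ((hc2 w).comp continuous_snd))))
    obtain ⟨d, hd⟩ := exists_surjective_nat (Option (I × ℕ × Bool))
    refine ⟨fun n => Ks (d n), fun n => hKs _, ?_⟩
    ext p
    rw [mem_iUnion]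
    constructor
    · intro hp
      have hp' : R (f.symm p.1) (f.symm p.2) := hp
      have key : ∃ o, p ∈ Ks o := by
        by_cases hxy : f.symm p.1 = f.symm p.2
        · exact ⟨none, f.symm.injective hxy⟩
        · cases hy : σ (f.symm p.2) with
          | some w =>
            obtain ⟨n, hn⟩ := (hs _ _).1 (hR.symm hp')
            refine ⟨some (w, n, true), ?_, ?_⟩
            · have := hF1 _ w hy
              rw [hfs'] at this
              exact this
            · have := hF2 _ w hy
              rw [hfs'] at this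
              rw [this, hn, hfs']
          | none =>
            cases hx : σ (f.symm p.1) with
            | none => exact absurd (hT _ _ hx hy hp') hxy
            | some w =>
              obtain ⟨n, hn⟩ := (hs _ _).1 hp'
              refine ⟨some (w, n, false), ?_, ?_⟩
              · have := hF1 _ w hx
                rw [hfs'] at this
                exact this
              · have := hF2 _ w hx
                rw [hfs'] at this
                rw [this, hn, hfs']
      obtain ⟨o, ho⟩ := key
      obtain ⟨n, rfl⟩ := hd o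
      exact ⟨n, ho⟩
    · rintro ⟨n, hn⟩
      show R (f.symm p.1) (f.symm p.2)
      revert hn
      beta_reduce
      rcases d n with (_ | ⟨w, m, (_ | _)⟩)
      · intro hn
        have : p.1 = p.2 := hn
        rw [this]
        exact hR.refl _
      · rintro ⟨hn1, hn2⟩
        rw [hfw p.1 w hn1, hn2, hfs]
        exact (hs _ _).2 ⟨m, rfl⟩
      · rintro ⟨hn1, hn2⟩
        rw [hfw p.2 w hn1, hn2, hfs]
        exact hR.symm ((hs _ _).2 ⟨m, rfl⟩)
  · intro x
    rw [dense_iff_inter_open]
    intro U hU ⟨y, hy⟩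
    obtain ⟨O, hO, rfl⟩ := isOpen_induced_iff.1 hU
    obtain ⟨u, v, hu, hv, hyu, hyv, huv⟩ := isOpen_prod_iff.1 hO y.1.1 y.1.2 hy
    obtain ⟨G, B, hB, hGB⟩ := isOpen_pi_iff.1 hv _ hyv
    have hN : ∀ᶠ z in 𝓝 y.1.1, z ∈ u ∧ ∀ w ∈ G, y.1.1 ≠ ⇑w → z ≠ ⇑w ∧ pm e w z ∈ B w := by
      refine (hu.eventually_mem hyu).and ?_
      rw [Filter.eventually_all_finset]
      intro w hw
      by_cases hyw : y.1.1 = ⇑w
      · exact Eventually.of_forall (fun z h => absurd hyw h)
      · filter_upwards [pm_locally e w y.1.1 hyw] with z hz _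
        refine ⟨hz.1, ?_⟩
        rw [hz.2, ← (y.2 w).2 hyw]
        exact (hB w hw).2
    have key : ∃ w : I, (w : ℕ → ℕ) ∈ u ∧ ∀ w' ∈ G, w ≠ w' ∧ pm e w' w ∈ B w' := by
      by_cases hv0 : ∃ v0 ∈ G, y.1.1 = ⇑v0
      · obtain ⟨v0, hv0, hyv0⟩ := hv0
        obtain ⟨j, hj⟩ := he2 v0 (B v0) (hB v0 hv0).1 _ (hB v0 hv0).2 (y.2 v0).1
        rw [hyv0] at hN
        obtain ⟨w, hwN, hwv, hwj⟩ := exists_I' e v0 j _ hN
        refine ⟨w, hwN.1, ?_⟩
        intro w' hw'
        by_cases hvw : v0 = w'
        · subst hvw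
          refine ⟨hwv, ?_⟩
          rw [hwj]
          exact hj
        · have := hwN.2 w' hw' (fun h => hvw (DFunLike.coe_injective h))
          exact ⟨fun h => this.1 (congrArg _ h), this.2⟩
      · push Not at hv0
        obtain ⟨w, hwN⟩ := exists_I _ _ hN
        refine ⟨w, hwN.1, ?_⟩
        intro w' hw'
        have := hwN.2 w' hw' (hv0 w' hw')
        exact ⟨fun h => this.1 (congrArg _ h), this.2⟩
    obtain ⟨w, hwu, hwG⟩ := key
    obtain ⟨x', hx', hσx'⟩ := hX x w
    refine ⟨F x', ?_, ⟨x', hx', rfl⟩⟩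
    refine huv ⟨?_, hGB ?_⟩
    · have := hF1 x' w hσx'
      rw [this]
      exact hwu
    · intro w' hw'
      have hne := (hwG w' hw').1
      have : (F x').1.2 w' = pm e w' w := by
        simp only [F, fm]
        rw [if_neg, h1 x' w hσx']
        rw [hσx']
        intro h
        exact hne (Option.some.inj h)
      rw [this]
      exact (hwG w' hw').2

end main

end Pool.Agent.H139R3.MF
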