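import Mathlib

set_option autoImplicit false

/-! # Refining a Polish topology so that countably many Borel self maps become continuous -/

namespace Pool.Agent.H139R3.MF

open Set TopologicalSpace

universe u v

theorem step {X : Type u} {H : Type v} [t0 : TopologicalSpace X] [p0 : PolishSpace X]
    [MeasurableSpace X] [b0 : BorelSpace X] (g : ℕ → X → X) (hg : ∀ n, Measurable (g n))
    [TopologicalSpace H] [SecondCountableTopology H] [MeasurableSpace H] [OpensMeasurableSpace H]
    (h : X → H) (hh : Measurable h) (t : TopologicalSpace X) (ht : t ≤ t0)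
    (hp : @PolishSpace X t) :
    ∃ t' : TopologicalSpace X, t' ≤ t ∧ @PolishSpace X t' ∧ (∀ n, @Continuous X X t' t (g n)) ∧
      @Continuous X H t' _ h := by
  have hb : @BorelSpace X t _ := by
    constructor
    rw [b0.measurable_eq]
    exact (MeasureTheory.borel_eq_borel_of_le hp p0 ht).symm
  have h1 : @Measurable X ((ℕ → X) × H) _ _ (fun x => ((fun n => g n x), h x)) := by
    exact (measurable_pi_lambda _ hg).prodMk hh
  have h2 : ∃ t' : TopologicalSpace X, t' ≤ t ∧
      @Continuous X ((ℕ → X) × H) t' (@instTopologicalSpaceProd _ _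
        (@Pi.topologicalSpace ℕ (fun _ => X) (fun _ => t)) _) (fun x => ((fun n => g n x), h x)) ∧
      @PolishSpace X t' := by
    let := t
    have := hp
    have := hb
    exact Measurable.exists_continuous (f := fun x => ((fun n => g n x), h x)) h1
  obtain ⟨t', ht', hc, hp'⟩ := h2
  refine ⟨t', ht', hp', ?_, ?_⟩
  · intro n
    let i1 : TopologicalSpace (ℕ → X) := @Pi.topologicalSpace ℕ (fun _ => X) (fun _ => t)
    have e1 : @Continuous _ _ t' _ (fun x => (fun n => g n x)) :=
      @Continuous.comp _ _ _ t' _ _ _ _ continuous_fst hc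
    have e2 : @Continuous _ _ i1 t (fun f : ℕ → X => f n) :=
      @continuous_apply ℕ (fun _ => X) (fun _ => t) n
    exact @Continuous.comp _ _ _ t' i1 t _ _ e2 e1
  · have e2 := @continuous_snd (ℕ → X) H (@Pi.topologicalSpace ℕ (fun _ => X) (fun _ => t)) _
    exact @Continuous.comp X ((ℕ → X) × H) H t' (@instTopologicalSpaceProd (ℕ → X) H
      (@Pi.topologicalSpace ℕ (fun _ => X) (fun _ => t)) _) _ _ _ e2 hc

/-- A Polish topology can be refined to a Polish topology for which countably many Borel self maps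
and one Borel map to a second countable space are continuous. -/
theorem exists_topology {X : Type u} {H : Type v} [t0 : TopologicalSpace X] [p0 : PolishSpace X]
    [MeasurableSpace X] [b0 : BorelSpace X] (g : ℕ → X → X) (hg : ∀ n, Measurable (g n))
    [TopologicalSpace H] [SecondCountableTopology H] [MeasurableSpace H] [OpensMeasurableSpace H]
    (h : X → H) (hh : Measurable h) :
    ∃ t : TopologicalSpace X, t ≤ t0 ∧ @PolishSpace X t ∧ @BorelSpace X t _ ∧
      (∀ n, @Continuous X X t t (g n)) ∧ @Continuous X H t _ h := by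
  choose F hF1 hF2 hF3 hF4 using @step X H t0 p0 _ b0 g hg _ _ _ _ h hh
  let T : ℕ → {t : TopologicalSpace X // t ≤ t0 ∧ @PolishSpace X t} := fun n =>
    Nat.rec ⟨t0, le_rfl, p0⟩ (fun _ s => ⟨F s.1 s.2.1 s.2.2, (hF1 _ _ _).trans s.2.1,
      hF2 _ _ _⟩) n
  have T0 : (T 0).1 = t0 := rfl
  have TS : ∀ n, (T (n + 1)).1 = F (T n).1 (T n).2.1 (T n).2.2 := fun n => rfl
  have hle : (⨅ n, (T n).1) ≤ t0 := iInf_le_of_le 0 le_rfl
  have hp : @PolishSpace X (⨅ n, (T n).1) := by
    refine PolishSpace.iInf ⟨0, fun i => (T i).2.1⟩ (fun i => (T i).2.2)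
  refine ⟨⨅ n, (T n).1, hle, hp, ?_, ?_, ?_⟩
  · refine @BorelSpace.mk X (⨅ n, (T n).1) _ ?_
    exact b0.measurable_eq.trans (MeasureTheory.borel_eq_borel_of_le hp p0 hle).symm
  · intro n
    rw [continuous_iInf_rng]
    intro k
    have e1 : @Continuous X X (T (k + 1)).1 (T k).1 (g n) := by
      rw [TS]
      exact hF3 _ _ _ n
    exact continuous_iInf_dom (i := k + 1) e1
  · have e1 : @Continuous X H (T (0 + 1)).1 _ h := by
      rw [TS]
      exact hF4 _ _ _
    exact continuous_iInf_dom (i := 0 + 1) e1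

end Pool.Agent.H139R3.MF
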