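import Mathlib

set_option autoImplicit false

/-! # A perfect partial transversal for a countable `F_σ` equivalence relation -/

namespace Pool.Agent.H139R3.MF

open Set TopologicalSpace Filter
open scoped ENNReal Topology

universe u v

section

variable {X : Type u} [MetricSpace X] [SecondCountableTopology X]

/-- Outside a countable set, all points are condensation points. -/
theorem exists_cond : ∃ N : Set X, N.Countable ∧ ∀ x, x ∉ N → ∀ O : Set X, IsOpen O → x ∈ O →
    ¬ O.Countable := by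
  obtain ⟨b, hb1, -, hb2⟩ := exists_countable_basis X
  refine ⟨⋃₀ {s | s ∈ b ∧ s.Countable}, ?_, ?_⟩
  · refine Countable.sUnion (hb1.mono (fun s hs => hs.1)) (fun s hs => hs.2)
  · intro x hx O hO hxO hc
    obtain ⟨s, hs, hxs, hsO⟩ := hb2.exists_subset_of_mem_open hxO hO
    exact hx ⟨s, ⟨hs, hc.mono hsO⟩, hxs⟩

theorem exists_points {J : Type v} (U : J → Set X) (hU : ∀ j, ¬ (U j).Countable) (N : Set X)
    (hN : N.Countable) (K : Set (X × X)) (hK1 : ∀ x, {y | (x, y) ∈ K}.Countable)
    (hK2 : ∀ x, {y | (y, x) ∈ K}.Countable) (s : Finset J) :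
    ∃ x : J → X, (∀ j, x j ∈ U j ∧ x j ∉ N) ∧ ∀ j ∈ s, ∀ j' ∈ s, j ≠ j' → (x j, x j') ∉ K := by
  classical
  induction s using Finset.induction_on with
  | empty =>
    have : ∀ j, ∃ x, x ∈ U j ∧ x ∉ N := by
      intro j
      by_contra hcon
      push Not at hcon
      exact hU j (hN.mono hcon)
    choose x hx using this
    exact ⟨x, hx, by simp⟩
  | insert a s ha ih =>
    obtain ⟨x, hx, hs⟩ := ih
    have h1 : (N ∪ ⋃ j ∈ s, ({y | (x j, y) ∈ K} ∪ {y | (y, x j) ∈ K})).Countable := by
      refine hN.union (Set.Countable.biUnion s.countable_toSet ?_)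
      intro j _
      exact (hK1 _).union (hK2 _)
    obtain ⟨z, hz1, hz2⟩ : ∃ z, z ∈ U a ∧
        z ∉ N ∪ ⋃ j ∈ s, ({y | (x j, y) ∈ K} ∪ {y | (y, x j) ∈ K}) := by
      by_contra hcon
      push Not at hcon
      exact hU a (h1.mono hcon)
    have hzN : z ∉ N := fun h => hz2 (Or.inl h)
    have hzK : ∀ j ∈ s, (x j, z) ∉ K ∧ (z, x j) ∉ K := by
      intro j hj
      constructor
      · intro h
        exact hz2 (Or.inr (mem_iUnion₂.2 ⟨j, hj, Or.inl h⟩))
      · intro h
        exact hz2 (Or.inr (mem_iUnion₂.2 ⟨j, hj, Or.inr h⟩))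
    refine ⟨Function.update x a z, ?_, ?_⟩
    · intro j
      by_cases hj : j = a
      · subst hj
        rw [Function.update_self]
        exact ⟨hz1, hzN⟩
      · rw [Function.update_of_ne hj]
        exact hx j
    · intro j hj j' hj' hne
      rw [Finset.mem_insert] at hj hj'
      rcases hj with rfl | hj
      · rcases hj' with rfl | hj'
        · exact absurd rfl hne
        · have : j' ≠ j := fun h => ha (h ▸ hj')
          rw [Function.update_self, Function.update_of_ne this]
          exact (hzK j' hj').2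
      · have h1 : j ≠ a := fun h => ha (h ▸ hj)
        rcases hj' with rfl | hj'
        · rw [Function.update_self, Function.update_of_ne h1]
          exact (hzK j hj).1
        · have : j' ≠ a := fun h => ha (h ▸ hj')
          rw [Function.update_of_ne this, Function.update_of_ne h1]
          exact hs j hj j' hj' hne

theorem refine_level {J : Type v} [Finite J] (U : J → Set X)
    (hU : ∀ j, IsOpen (U j) ∧ ¬ (U j).Countable)
    (K : Set (X × X)) (hKc : IsClosed K) (hK1 : ∀ x, {y | (x, y) ∈ K}.Countable)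
    (hK2 : ∀ x, {y | (y, x) ∈ K}.Countable) (r : ℝ) (hr : 0 < r) :
    ∃ V : J → Set X, (∀ j, IsOpen (V j) ∧ ¬ (V j).Countable ∧ closure (V j) ⊆ U j ∧
      Metric.ediam (V j) ≤ ENNReal.ofReal r) ∧
      ∀ j j', j ≠ j' → ∀ x ∈ V j, ∀ y ∈ V j', (x, y) ∉ K := by
  classical
  have := Fintype.ofFinite J
  obtain ⟨N, hN, hN2⟩ := exists_cond (X := X)
  obtain ⟨x, hx, hxK⟩ := exists_points U (fun j => (hU j).2) N hN K hK1 hK2 Finset.univ
  have h1 : ∀ j j', ∃ A B : Set X, IsOpen A ∧ IsOpen B ∧ x j ∈ A ∧ x j' ∈ B ∧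
      (j ≠ j' → ∀ a ∈ A, ∀ b ∈ B, (a, b) ∉ K) := by
    intro j j'
    by_cases hj : j = j'
    · exact ⟨univ, univ, isOpen_univ, isOpen_univ, mem_univ _, mem_univ _, fun h => absurd hj h⟩
    · have h2 : (x j, x j') ∉ K := hxK j (Finset.mem_univ _) j' (Finset.mem_univ _) hj
      obtain ⟨A, B, hA, hB, hxA, hxB, hAB⟩ := isOpen_prod_iff.1 hKc.isOpen_compl _ _ h2
      refine ⟨A, B, hA, hB, hxA, hxB, ?_⟩
      intro _ a ha b hb
      exact hAB ⟨ha, hb⟩
  choose A B hA hB hxA hxB hAB using h1
  have h2 : ∀ j, ∃ ρ > 0, Metric.closedBall (x j) ρ ⊆ U j := by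
    intro j
    exact Metric.nhds_basis_closedBall.mem_iff.1 ((hU j).1.mem_nhds (hx j).1)
  choose ρ hρ hρU using h2
  let V : J → Set X := fun j => Metric.ball (x j) (min (ρ j) (r / 2)) ∩
    ((⋂ j', A j j') ∩ ⋂ j', B j' j)
  have hVo : ∀ j, IsOpen (V j) := by
    intro j
    refine Metric.isOpen_ball.inter (IsOpen.inter ?_ ?_)
    · exact isOpen_iInter_of_finite (fun j' => hA _ _)
    · exact isOpen_iInter_of_finite (fun j' => hB _ _)
  have hVx : ∀ j, x j ∈ V j := by
    intro j
    refine ⟨Metric.mem_ball_self (lt_min (hρ j) (by positivity)), ?_, ?_⟩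
    · exact mem_iInter.2 (fun j' => hxA _ _)
    · exact mem_iInter.2 (fun j' => hxB _ _)
  refine ⟨V, ?_, ?_⟩
  · intro j
    refine ⟨hVo j, hN2 _ (hx j).2 _ (hVo j) (hVx j), ?_, ?_⟩
    · refine Subset.trans ?_ (hρU j)
      refine closure_minimal ?_ Metric.isClosed_closedBall
      intro y hy
      exact Metric.ball_subset_closedBall (Metric.ball_subset_ball (min_le_left _ _) hy.1)
    · refine (Metric.ediam_mono (s := V j) (t := Metric.ball (x j) (r / 2)) ?_).trans ?_
      · intro y hy
        exact Metric.ball_subset_ball (min_le_right _ _) hy.1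
      · rw [← Metric.eball_ofReal]
        refine Metric.ediam_eball_le.trans ?_
        rw [show (2 : ℝ≥0∞) = ENNReal.ofReal 2 by simp, ← ENNReal.ofReal_mul (by norm_num)]
        exact ENNReal.ofReal_le_ofReal (by linarith)
  · intro j j' hne a ha b hb
    exact hAB j j' hne a (mem_iInter.1 ha.2.1 j') b (mem_iInter.1 hb.2.2 j)

end

open CantorScheme PiNat in
/-- A countable equivalence relation on an uncountable Polish space which is a countable union of
closed sets has a continuous injective family, indexed by the Cantor space, of pairwise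
inequivalent points. -/
theorem exists_perfect_transversal {X : Type u} [TopologicalSpace X] [PolishSpace X]
    (hX : ¬ Countable X) (R : X → X → Prop) (K : ℕ → Set (X × X)) (hKc : ∀ n, IsClosed (K n))
    (hR : ∀ x y, R x y ↔ ∃ n, (x, y) ∈ K n) (hrefl : ∀ x, R x x) (hsymm : ∀ x y, R x y → R y x)
    (hc : ∀ x, {y | R x y}.Countable) :
    ∃ φ : (ℕ → Bool) → X, Continuous φ ∧ ∀ a b, R (φ a) (φ b) → a = b := by
  classical
  let := upgradeIsCompletelyMetrizable X
  let L : ℕ → Set (X × X) := fun n => ⋃ i : Fin (n + 1), K i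
  have hLc : ∀ n, IsClosed (L n) := fun n => isClosed_iUnion_of_finite (fun i => hKc _)
  have hLR : ∀ n x y, (x, y) ∈ L n → R x y := by
    intro n x y h
    obtain ⟨i, hi⟩ := mem_iUnion.1 h
    exact (hR _ _).2 ⟨_, hi⟩
  have hRL : ∀ x y, R x y → ∃ n, ∀ m, n ≤ m → (x, y) ∈ L m := by
    intro x y h
    obtain ⟨n, hn⟩ := (hR _ _).1 h
    exact ⟨n, fun m hm => mem_iUnion.2 ⟨⟨n, by omega⟩, hn⟩⟩
  have hL1 : ∀ n x, {y | (x, y) ∈ L n}.Countable := fun n x =>
    (hc x).mono (fun y hy => hLR _ _ _ hy)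
  have hL2 : ∀ n x, {y | (y, x) ∈ L n}.Countable := fun n x =>
    (hc x).mono (fun y hy => hsymm _ _ (hLR _ _ _ hy))
  -- one step
  have stepL : ∀ (n : ℕ) (U : List Bool → Set X),
      (∀ l, l.length = n → IsOpen (U l) ∧ ¬ (U l).Countable) →
      ∃ V : List Bool → Set X, (∀ l, l.length = n + 1 → IsOpen (V l) ∧ ¬ (V l).Countable) ∧
        (∀ l b, l.length = n → closure (V (b :: l)) ⊆ U l) ∧
        (∀ l, l.length = n + 1 → Metric.ediam (V l) ≤ ENNReal.ofReal ((1 / 2) ^ n)) ∧
        ∀ l l', l.length = n + 1 → l'.length = n + 1 → l ≠ l' → ∀ x ∈ V l, ∀ y ∈ V l',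
          (x, y) ∉ L n := by
    intro n U hU
    have hJ : Finite {l : List Bool // l.length = n + 1} :=
      Finite.of_equiv (List.Vector Bool (n + 1)) (Equiv.refl _)
    have hU' : ∀ j : {l : List Bool // l.length = n + 1},
        IsOpen (U j.1.tail) ∧ ¬ (U j.1.tail).Countable := by
      intro j
      apply hU
      rw [List.length_tail, j.2]
      rfl
    obtain ⟨V, hV1, hV2⟩ := refine_level (fun j : {l : List Bool // l.length = n + 1} =>
      U j.1.tail) hU' (L n) (hLc n) (hL1 n) (hL2 n) ((1 / 2) ^ n) (by positivity)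
    refine ⟨fun l => if h : l.length = n + 1 then V ⟨l, h⟩ else ∅, ?_, ?_, ?_, ?_⟩
    · intro l hl
      simp only [hl, dif_pos]
      exact ⟨(hV1 _).1, (hV1 _).2.1⟩
    · intro l b hl
      have hl' : (b :: l).length = n + 1 := by simp [hl]
      simp only [hl', dif_pos]
      exact (hV1 ⟨b :: l, hl'⟩).2.2.1
    · intro l hl
      simp only [hl, dif_pos]
      exact (hV1 _).2.2.2
    · intro l l' hl hl' hne x hx y hy
      simp only [hl, dif_pos] at hx
      simp only [hl', dif_pos] at hy
      exact hV2 ⟨l, hl⟩ ⟨l', hl'⟩ (fun h => hne (congrArg Subtype.val h)) x hx y hy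
  choose F hF1 hF2 hF3 hF4 using stepL
  let W : (n : ℕ) → {U : List Bool → Set X // ∀ l, l.length = n → IsOpen (U l) ∧
      ¬ (U l).Countable} := fun n =>
    Nat.rec ⟨fun _ => univ, fun l _ => ⟨isOpen_univ, fun h => hX (countable_univ_iff.1 h)⟩⟩
      (fun n s => ⟨F n s.1 s.2, hF1 _ _ _⟩) n
  have WS : ∀ n, (W (n + 1)).1 = F n (W n).1 (W n).2 := fun n => rfl
  let A : List Bool → Set X := fun l => (W l.length).1 l
  have hA1 : ∀ l, ¬ (A l).Countable := fun l => ((W l.length).2 l rfl).2
  have hA2 : ClosureAntitone A := by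
    intro l b
    have := hF2 l.length (W l.length).1 (W l.length).2 l b rfl
    rw [← WS] at this
    exact this
  have hA3 : ∀ n l, l.length = n + 1 → Metric.ediam (A l) ≤ ENNReal.ofReal ((1 / 2) ^ n) := by
    intro n l hl
    have := hF3 n (W n).1 (W n).2 l hl
    rw [← WS, ← hl] at this
    exact this
  have hA4 : ∀ n l l', l.length = n + 1 → l'.length = n + 1 → l ≠ l' → ∀ x ∈ A l, ∀ y ∈ A l',
      (x, y) ∉ L n := by
    intro n l l' hl hl' hne x hx y hy
    refine hF4 n (W n).1 (W n).2 l l' hl hl' hne x ?_ y ?_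
    · rw [← WS, ← hl]
      exact hx
    · rw [← WS, ← hl']
      exact hy
  have hA5 : VanishingDiam A := by
    intro x
    have h1 : Tendsto (fun n : ℕ => ENNReal.ofReal ((1 / 2 : ℝ) ^ (n - 1))) atTop (𝓝 0) := by
      rw [← ENNReal.ofReal_zero]
      refine ENNReal.tendsto_ofReal ?_
      exact (tendsto_pow_atTop_nhds_zero_of_lt_one (by norm_num) (by norm_num)).comp
        (tendsto_sub_atTop_nat 1)
    refine tendsto_of_tendsto_of_tendsto_of_le_of_le' tendsto_const_nhds h1
      (Eventually.of_forall (fun _ => bot_le)) ?_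
    filter_upwards [eventually_ge_atTop 1] with n hn
    obtain ⟨m, rfl⟩ : ∃ m, n = m + 1 := ⟨n - 1, by omega⟩
    rw [Nat.add_sub_cancel]
    exact hA3 m _ (res_length x (m + 1))
  have hdom : (inducedMap A).1 = univ := by
    refine ClosureAntitone.map_of_vanishingDiam hA5 hA2 ?_
    intro l
    by_contra hcon
    rw [not_nonempty_iff_eq_empty] at hcon
    exact hA1 l (hcon ▸ countable_empty)
  let φ : (ℕ → Bool) → X := fun a => (inducedMap A).2 ⟨a, hdom ▸ mem_univ a⟩
  have hφ : ∀ a n, φ a ∈ A (res a n) := fun a n => map_mem _ n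
  refine ⟨φ, ?_, ?_⟩
  · exact hA5.map_continuous.comp (continuous_id.subtype_mk _)
  · intro a b hab
    by_contra hne
    obtain ⟨n, hn⟩ := hRL _ _ hab
    have h1 : ∃ k, res a k ≠ res b k := by
      by_contra hcon
      push Not at hcon
      exact hne (res_injective (funext hcon))
    obtain ⟨k, hk⟩ := h1
    have h2 : res a (max n k + 1) ≠ res b (max n k + 1) := by
      intro h
      apply hk
      rw [res_eq_res] at h ⊢
      intro m hm
      exact h (lt_of_lt_of_le hm (by omega))
    exact hA4 (max n k) _ _ (res_length _ _) (res_length _ _) h2 _ (hφ a (max n k + 1)) _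
      (hφ b (max n k + 1)) (hn _ (le_max_left _ _))

end Pool.Agent.H139R3.MF
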