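import Mathlib
import Pool.Agent.H139R3.FM
import Pool.Agent.H139R3.MF.Top
import Pool.Agent.H139R3.MF.Trans
import Pool.Agent.H139R3.MF.Mark
import Pool.Agent.H139R3.MF.Space

set_option autoImplicit false

/-! # Minimal `F_σ` realizations of aperiodic countable Borel equivalence relations -/

namespace Pool.Agent.H139R3.MF

open Set TopologicalSpace

universe u

theorem exists_dense_in {X : Type u} [TopologicalSpace X] [SecondCountableTopology X] (A : Set X)
    (hA : A.Nonempty) : ∃ e : ℕ → X, (∀ j, e j ∈ A) ∧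
      ∀ O : Set X, IsOpen O → ∀ x ∈ O, x ∈ A → ∃ j, e j ∈ O := by
  have : Nonempty A := hA.to_subtype
  refine ⟨fun j => (denseSeq A j).1, fun j => (denseSeq A j).2, ?_⟩
  intro O hO x hx hxw
  have hO' : IsOpen ((Subtype.val : A → X) ⁻¹' O) := hO.preimage continuous_subtype_val
  obtain ⟨z, hz1, j, rfl⟩ := (denseRange_denseSeq A).inter_open_nonempty _ hO' ⟨⟨x, hxw⟩, hx⟩
  exact ⟨j, hz1⟩

theorem not_countable_nat_bool : ¬ Countable (ℕ → Bool) := by
  intro h
  obtain ⟨f, hf⟩ := exists_surjective_nat (ℕ → Bool)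
  obtain ⟨n, hn⟩ := hf (fun n => !(f n n))
  have := congrFun hn n
  simp at this

theorem not_countable_nat_nat : ¬ Countable (ℕ → ℕ) := by
  intro h
  obtain ⟨f, hf⟩ := exists_surjective_nat (ℕ → ℕ)
  obtain ⟨n, hn⟩ := hf (fun n => f n n + 1)
  have := congrFun hn n
  simp at this

/-- A Borel isomorphic copy, on a Polish space, which is an `F_σ` subset of the square and all of
whose classes are dense. -/
def HasMinimalFSigmaRealization {X : Type u} [MeasurableSpace X] (R : X → X → Prop) : Prop :=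
  ∃ (Y : Type u) (_ : TopologicalSpace Y) (_ : PolishSpace Y) (_ : MeasurableSpace Y)
    (_ : BorelSpace Y) (f : X ≃ᵐ Y),
    (∃ K : ℕ → Set (Y × Y), (∀ n, IsClosed (K n)) ∧
      {p : Y × Y | R (f.symm p.1) (f.symm p.2)} = ⋃ n, K n) ∧
    ∀ y, Dense {z | R (f.symm y) (f.symm z)}

theorem exists_perfect_transversal' {X : Type u} [MeasurableSpace X] [StandardBorelSpace X]
    (hX : ¬ Countable X) (R : X → X → Prop) (hR : Equivalence R)
    (hc : ∀ x, {y | R x y}.Countable)
    (s : ℕ → X → X) (hsm : ∀ n, Measurable (s n)) (hs : ∀ x y, R x y ↔ ∃ n, s n x = y) :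
    ∃ T : Set X, MeasurableSet T ∧ ¬ T.Countable ∧ ∀ x ∈ T, ∀ y ∈ T, R x y → x = y := by
  let := upgradeStandardBorel X
  obtain ⟨t, -, hp, hb, hcont, -⟩ := exists_topology s hsm (fun _ : X => ()) measurable_const
  let tt := t
  have := hp
  have := hb
  obtain ⟨φ, hφ1, hφ2⟩ := @exists_perfect_transversal X t hp hX R
    (fun n => {p | s n p.1 = p.2})
    (fun n => @isClosed_eq _ _ t _ _ _ _ (@Continuous.comp _ _ _ _ t t _ _ (hcont n)
      (@continuous_fst X X t t)) (@continuous_snd X X t t))
    (fun x y => hs x y) (fun x => hR.refl x) (fun x y h => hR.symm h) hc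
  have hcomp : @IsCompact X t (range φ) := @isCompact_range _ _ _ t _ _ hφ1
  have hclosed : @IsClosed X t (range φ) := @IsCompact.isClosed X t _ _ hcomp
  refine ⟨range φ, @IsClosed.measurableSet X _ t _ _ hclosed, ?_, ?_⟩
  · intro h
    have hinj : Function.Injective φ := fun a b hab => hφ2 a b (hab ▸ hR.refl _)
    have h2 : Countable (ℕ → Bool) := by
      have := h.to_subtype
      exact (rangeFactorization_injective.2 hinj).countable
    exact not_countable_nat_bool h2
  · rintro x ⟨a, rfl⟩ y ⟨b, rfl⟩ hab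
    rw [hφ2 a b hab]

theorem final {X : Type u} [MeasurableSpace X] [StandardBorelSpace X] (hX : ¬ Countable X)
    (R : X → X → Prop) (hR : Equivalence R) (hm : MeasurableSet {p : X × X | R p.1 p.2})
    (hc : ∀ x, {y | R x y}.Countable) (hinf : ∀ x, {y | R x y}.Infinite) :
    HasMinimalFSigmaRealization R := by
  classical
  obtain ⟨s, hsm, hsi, hs⟩ := Pool.Agent.H139R3.FM.feldman_moore R hR hm hc
  obtain ⟨T, hTm, hTc, hT⟩ := exists_perfect_transversal' hX R hR hc s hsm hs
  obtain ⟨ρ, hρ, hρ2⟩ := exists_marker R s hR hsm hs hinf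
  obtain ⟨d, hd⟩ := exists_surjective_nat I
  let Zc : Set (ℕ → ℕ) := (range (fun w : I => (w : ℕ → ℕ)))ᶜ
  have hZm : MeasurableSet Zc := (countable_range _).measurableSet.compl
  have hZc : ¬ Countable Zc := by
    intro h
    have h1 : Zc.Countable := h
    have h2 : (univ : Set (ℕ → ℕ)).Countable := by
      rw [← union_compl_self (range (fun w : I => (w : ℕ → ℕ)))]
      exact (countable_range _).union h1
    exact not_countable_nat_nat (countable_univ_iff.1 h2)
  have : StandardBorelSpace T := hTm.standardBorel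
  have : StandardBorelSpace Zc := hZm.standardBorel
  let i0 : T ≃ᵐ Zc := PolishSpace.measurableEquivOfNotCountable hTc hZc
  let σ : X → Option I := fun x => if x ∈ T then none else some (d (ρ x))
  let nav : X → ℕ → ℕ := fun x => if h : x ∈ T then (i0 ⟨x, h⟩).1 else d (ρ x)
  obtain ⟨enc, henc⟩ := exists_injective_nat (Option I)
  have hσm : Measurable (fun x => enc (σ x)) := by
    have e1 : (fun x => enc (σ x)) = fun x => if x ∈ T then enc none else enc (some (d (ρ x))) := by
      funext x
      simp only [σ]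
      split_ifs <;> rfl
    rw [e1]
    exact Measurable.ite hTm measurable_const
      ((measurable_from_top (f := fun n : ℕ => enc (some (d n)))).comp hρ)
  have hnavm : Measurable nav := by
    refine Measurable.dite (f := fun x : T => (i0 x).1)
      (g := fun x : (Tᶜ : Set X) => ((d (ρ x) : I) : ℕ → ℕ)) ?_ ?_ hTm
    · exact measurable_subtype_coe.comp i0.measurable
    · exact (measurable_from_top (f := fun n : ℕ => ((d n : I) : ℕ → ℕ))).comp
        (hρ.comp measurable_subtype_coe)
  let t0 := upgradeStandardBorel X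
  obtain ⟨t, -, hp, hb, hcont, hhc⟩ := exists_topology s hsm
    (fun x : X => (enc (σ x), nav x)) (hσm.prodMk hnavm)
  clear t0
  have := hp
  have := hb
  have hσc : Continuous (fun x => enc (σ x)) := continuous_fst.comp hhc
  have hnavc : Continuous nav := continuous_snd.comp hhc
  have hσclopen : ∀ o, IsClopen (σ ⁻¹' {o}) := by
    intro o
    have e1 : σ ⁻¹' {o} = (fun x => enc (σ x)) ⁻¹' {enc o} := by
      ext x
      simp only [mem_preimage, mem_singleton_iff]
      exact henc.eq_iff.symm
    rw [e1]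
    exact (isClopen_discrete _).preimage hσc
  have hmeet : ∀ x (w : I), ∃ y, R x y ∧ σ y = some w := by
    intro x w
    obtain ⟨n, rfl⟩ := hd w
    have h1 : {y | R x y ∧ y ∈ T}.Finite := by
      refine Set.Subsingleton.finite ?_
      rintro y ⟨hy1, hy2⟩ z ⟨hz1, hz2⟩
      exact hT y hy2 z hz2 (hR.trans (hR.symm hy1) hz1)
    obtain ⟨y, ⟨hy1, hy2⟩, hy3⟩ := ((hρ2 x n).sdiff h1).nonempty
    refine ⟨y, hy1, ?_⟩
    have : y ∉ T := fun h => hy3 ⟨hy1, h⟩
    simp only [σ, if_neg this, hy2]
  have hXne : Nonempty X := by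
    by_contra hcon
    rw [not_nonempty_iff] at hcon
    exact hX inferInstance
  have hsep : ∀ w : I, ∃ e : ℕ → X, (∀ j, σ (e j) = some w) ∧
      ∀ O : Set X, IsOpen O → ∀ x ∈ O, σ x = some w → ∃ j, e j ∈ O := by
    intro w
    obtain ⟨x0⟩ := hXne
    obtain ⟨y, -, hy⟩ := hmeet x0 w
    exact @exists_dense_in X t hp.toSecondCountableTopology {x | σ x = some w} ⟨y, hy⟩
  choose e he1 he2 using hsep
  have hn1 : ∀ x (w : I), σ x = some w → nav x = w := by
    intro x w h
    by_cases hx : x ∈ T
    · simp only [σ, if_pos hx] at h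
      exact absurd h (by simp)
    · simp only [σ, if_neg hx, Option.some_inj] at h
      simp only [nav, dif_neg hx, h]
  have hσn : ∀ x, σ x = none → x ∈ T := by
    intro x h
    by_contra hx
    simp only [σ, if_neg hx] at h
    exact absurd h (by simp)
  have hn2 : ∀ x, σ x = none → ∀ w : I, nav x ≠ w := by
    intro x h w hw
    have hx := hσn x h
    simp only [nav, dif_pos hx] at hw
    exact (i0 ⟨x, hx⟩).2 ⟨w, hw.symm⟩
  have hn3 : ∀ x x', σ x = none → σ x' = none → nav x = nav x' → x = x' := by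
    intro x x' h h' hn
    have hx := hσn x h
    have hx' := hσn x' h'
    simp only [nav, dif_pos hx, dif_pos hx'] at hn
    exact congrArg Subtype.val (i0.injective (Subtype.ext hn))
  have hn4 : ∀ z : ℕ → ℕ, (∀ w : I, z ≠ w) → ∃ x, σ x = none ∧ nav x = z := by
    intro z hz
    have hz' : z ∈ Zc := by
      rintro ⟨w, hw⟩
      exact hz w hw.symm
    refine ⟨(i0.symm ⟨z, hz'⟩).1, ?_, ?_⟩
    · simp only [σ, if_pos (i0.symm ⟨z, hz'⟩).2]
    · simp only [nav, dif_pos (i0.symm ⟨z, hz'⟩).2, Subtype.coe_eta,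
        MeasurableEquiv.apply_symm_apply]
  obtain ⟨Y, i1, i2, i3, i4, f, hf1, hf2⟩ := main σ nav e hσclopen hnavc hn1 hn2 hn3 hn4 he1 he2
    R hR s hcont hs (fun x y hx hy h => hT x (hσn x hx) y (hσn y hy) h) hmeet
  refine ⟨Y, i1, i2, i3, i4, f, hf1, ?_⟩
  intro y
  have := hf2 (f.symm y)
  convert this using 1
  ext z
  constructor
  · intro h
    exact ⟨f.symm z, h, f.apply_symm_apply z⟩
  · rintro ⟨x, hx, rfl⟩
    show R (f.symm y) (f.symm (f x))
    rw [f.symm_apply_apply]
    exact hx

end Pool.Agent.H139R3.MF
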